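import Pool.Agent.R518.Blocks286

/-!
# The blocks `((k - 1) n, k n]` and `(k n, (k + 1) n]` for `n = 14` and `n = 286`

For `n = 14` and for `n = 286` there is no `k` with `1 ≤ k < n`, `2 k + 1` prime, for which the two
blocks contain equally many primes. So the statement of the question is false, and it remains false
if the exceptional values `8` and `14` are both left out.
-/

set_option autoImplicit false

namespace Pool.Agent.Results.MP_b665a0_nt.TwoCounterexamples

open Pool.Agent.R518.Blocks286

theorem prim14 : primorial 14 = 30030 := by
  unfold primorial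
  decide +kernel

theorem first14 : Nat.count Nat.Prime (14 + 1) ≠ cop 30030 14 14 := by
  decide +kernel

theorem check14 : ∀ k ∈ Finset.Ico 2 14, (2 * k + 1).Prime →
    cop 30030 ((k - 1) * 14) 14 ≠ cop 30030 (k * 14) 14 := by
  decide +kernel

/-- the product of the primes up to `286` -/
def V : ℕ := 6975357535853769564018389183934484833544679824821000822079731605785973739106144495802573231793827147966964944839451970

theorem prim286 : primorial 286 = V := by
  unfold primorial
  decide +kernel

theorem first286 : Nat.count Nat.Prime (286 + 1) ≠ cop V 286 286 := by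
  decide +kernel

theorem check286 : ∀ k ∈ Finset.Ico 2 286, (2 * k + 1).Prime →
    cop V ((k - 1) * 286) 286 ≠ cop V (k * 286) 286 := by
  decide +kernel

/-- Neither for `n = 14` nor for `n = 286` is there a `k` as in the question; in particular the
assertion of the question is false. -/
theorem result :
    (∀ n : ℕ, n = 14 ∨ n = 286 → ¬ ∃ k : ℕ, 1 ≤ k ∧ k < n ∧ (2 * k + 1).Prime ∧
      Nat.primeCounting (k * n) - Nat.primeCounting ((k - 1) * n) =
        Nat.primeCounting ((k + 1) * n) - Nat.primeCounting (k * n)) ∧
    ¬ ∀ n : ℕ, 1 < n → n ≠ 8 → ∃ k : ℕ, 1 ≤ k ∧ k < n ∧ (2 * k + 1).Prime ∧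
      Nat.primeCounting (k * n) - Nat.primeCounting ((k - 1) * n) =
        Nat.primeCounting ((k + 1) * n) - Nat.primeCounting (k * n) := by
  have h14 := none_of 14 30030 (by norm_num) prim14 first14 check14
  have h286 := none_of 286 V (by norm_num) prim286 first286 check286
  refine ⟨?_, fun h => h14 (h 14 (by norm_num) (by norm_num))⟩
  rintro n (rfl | rfl)
  · exact h14
  · exact h286

end Pool.Agent.Results.MP_b665a0_nt.TwoCounterexamples
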